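import Pool.Agent.U331.GR.Floor

/-!
# The set `G` on and above the golden ratio

Let `t > 0` and `α ≥ (1 + √5) / 2`. If `⌊t α^n⌋` is complete, then every positive integer is a sum of
distinct terms, and this is so if and only if no term exceeds `1` plus the sum of the smaller ones. For
`α < 2` only the finitely many `n` with `(2 - α) ⌊t α^n⌋ < α` have to be tested; for `α ≤ 5/3` the
condition is that `1` and `2` are terms. For `t ≥ 2` the sequence is not complete.

The reason: by `α² ≥ α + 1` the terms satisfy `s (k + 2) ≥ s (k + 1) + s k`. If `N` is a number between the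
sum of the terms before `s a` and `s a`, then the terms `s (a + 1), s (a + 3), …` are forced in the
expansions of `N + s (a + 1) + s (a + 3) + … + s (a + 2 j - 1)` (as in the unique expansions
`(10)^∞` in bases above the golden ratio), and so none of these numbers is a sum of distinct terms.
-/

set_option autoImplicit false

namespace Pool.Agent.Results.MP_0ff3a5_nt.AboveGoldenRatio

/-- the set of the values `⌊t α^n⌋` -/
def seqSet (t α : ℝ) : Set ℤ := {m | ∃ n : ℕ, m = ⌊t * α ^ n⌋}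

/-- `m` is a sum of distinct elements of `A` -/
def IsSum (A : Set ℤ) (m : ℤ) : Prop := ∃ F : Finset ℤ, (F : Set ℤ) ⊆ A ∧ ∑ a ∈ F, a = m

/-- every large integer is a sum of distinct elements of `A` -/
def Complete (A : Set ℤ) : Prop := ∃ N : ℤ, ∀ m ≥ N, IsSum A m

/-- the sum of the different values among `⌊t α^k⌋`, `k < n` -/
noncomputable def total (t α : ℝ) (n : ℕ) : ℤ := ∑ v ∈ (Finset.range n).image (fun k : ℕ => ⌊t * α ^ k⌋), v

section proof

open Pool.Agent.U331.GR

variable {t α : ℝ}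

theorem cast_b (ht : 0 < t) (hα : 0 < α) (n : ℕ) : ((b t α n : ℕ) : ℤ) = ⌊t * α ^ n⌋ :=
  Int.natCast_floor_eq_floor (by positivity)

theorem cast_T (ht : 0 < t) (hα : 0 < α) (n : ℕ) : ((T (b t α) n : ℕ) : ℤ) = total t α n := by
  unfold T V total
  have e : (fun k : ℕ => ⌊t * α ^ k⌋) = fun k => ((b t α k : ℕ) : ℤ) := by
    funext k
    exact (cast_b ht hα k).symm
  have e2 : (Finset.range n).image (fun k => ((b t α k : ℕ) : ℤ)) =
      ((Finset.range n).image (b t α)).map Nat.castEmbedding := by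
    ext x
    simp only [Finset.mem_image, Finset.mem_map, Nat.castEmbedding_apply]
    constructor
    · rintro ⟨k, hk, rfl⟩
      exact ⟨_, ⟨k, hk, rfl⟩, rfl⟩
    · rintro ⟨_, ⟨k, hk, rfl⟩, rfl⟩
      exact ⟨k, hk, rfl⟩
  rw [e, e2, Finset.sum_map, Nat.cast_sum]
  rfl

theorem isSum_iff (ht : 0 < t) (hα : 0 < α) (m : ℕ) : IsSum (seqSet t α) (m : ℤ) ↔ Rep (b t α) m := by
  constructor
  · rintro ⟨F, hF, hs⟩
    have hinj : Set.InjOn (fun v : ℕ => (v : ℤ)) ((fun v : ℕ => (v : ℤ)) ⁻¹' (F : Set ℤ)) :=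
      fun x _ y _ h => Nat.cast_injective h
    refine ⟨F.preimage (fun v : ℕ => (v : ℤ)) hinj, fun v hv => ?_, ?_⟩
    · rw [Finset.mem_preimage] at hv
      obtain ⟨n, hn⟩ := hF (Finset.mem_coe.2 hv)
      refine ⟨n, ?_⟩
      have h1 := cast_b ht hα n
      have h2 : (v : ℤ) = ⌊t * α ^ n⌋ := hn
      omega
    · have h1 := Finset.sum_preimage (fun v : ℕ => (v : ℤ)) F hinj (fun x => x) (by
        intro x hx hx'
        obtain ⟨n, hn⟩ := hF (Finset.mem_coe.2 hx)
        exact absurd ⟨b t α n, by rw [hn]; exact cast_b ht hα n⟩ hx')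
      rw [hs] at h1
      have h2 : ((∑ v ∈ F.preimage (fun v : ℕ => (v : ℤ)) hinj, v : ℕ) : ℤ) = m := by
        rw [Nat.cast_sum]
        exact h1
      exact_mod_cast h2
  · rintro ⟨F, hF, hs⟩
    refine ⟨F.map Nat.castEmbedding, ?_, ?_⟩
    · intro x hx
      simp only [Finset.coe_map, Set.mem_image, Finset.mem_coe, Nat.castEmbedding_apply] at hx
      obtain ⟨v, hv, rfl⟩ := hx
      obtain ⟨n, hn⟩ := hF v hv
      exact ⟨n, by rw [hn]; exact cast_b ht hα n⟩
    · rw [Finset.sum_map]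
      simp only [Nat.castEmbedding_apply]
      rw [← Nat.cast_sum, hs]

theorem complete_rep (ht : 0 < t) (hα : 0 < α) :
    Complete (seqSet t α) ↔ ∃ N : ℕ, ∀ m ≥ N, Rep (b t α) m := by
  constructor
  · rintro ⟨N, hN⟩
    refine ⟨N.toNat, fun m hm => (isSum_iff ht hα m).1 (hN m (by omega))⟩
  · rintro ⟨N, hN⟩
    refine ⟨N, fun m hm => ?_⟩
    obtain ⟨k, rfl⟩ := Int.eq_ofNat_of_zero_le (show 0 ≤ m by omega)
    exact (isSum_iff ht hα k).2 (hN k (by omega))

end proof

open Pool.Agent.U331.GR in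
/-- **The set `G` on and above the golden ratio.** Let `t > 0` and `α ≥ (1 + √5) / 2`.

(1) `(t, α)` is good iff every nonnegative integer is a sum of distinct terms `⌊t α^n⌋`.
(2) `(t, α)` is good iff for all `n` the term `⌊t α^n⌋` is at most `1` plus the sum of the different
values of the terms before it.
(3) If `α < 2`, the set of the `n` with `(2 - α) ⌊t α^n⌋ < α` is finite, and `(t, α)` is good iff
`⌊t⌋ ≤ 1` and the condition in (2) is true for the numbers `n + 1`, `n` in this set.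
(4) If `α ≤ 5/3`, then `(t, α)` is good iff `1` and `2` are terms of the sequence.
(5) If `t ≥ 2`, then `(t, α)` is not good. -/
theorem result (t α : ℝ) (ht : 0 < t) (hα : (1 + Real.sqrt 5) / 2 ≤ α) :
    (Complete (seqSet t α) ↔ ∀ m : ℤ, 0 ≤ m → IsSum (seqSet t α) m) ∧
    (Complete (seqSet t α) ↔ ∀ n : ℕ, ⌊t * α ^ n⌋ ≤ 1 + total t α n) ∧
    (α < 2 → {n : ℕ | (2 - α) * ⌊t * α ^ n⌋ < α}.Finite ∧
      (Complete (seqSet t α) ↔ ⌊t⌋ ≤ 1 ∧
        ∀ n : ℕ, (2 - α) * ⌊t * α ^ n⌋ < α → ⌊t * α ^ (n + 1)⌋ ≤ 1 + total t α (n + 1))) ∧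
    (α ≤ 5 / 3 → (Complete (seqSet t α) ↔ (∃ n : ℕ, ⌊t * α ^ n⌋ = 1) ∧ ∃ n : ℕ, ⌊t * α ^ n⌋ = 2)) ∧
    (2 ≤ t → ¬ Complete (seqSet t α)) := by
  have hg := golden_gt hα
  have hα1 : 1 < α := by linarith
  have hα0 : 0 < α := by linarith
  have hC := (complete_rep ht hα0).trans
    (complete_iff (b_mono ht hα1) (b_fib ht hα) (b_unb ht hα1))
  have hcast := fun n => cast_b ht hα0 n
  have hT := fun n => cast_T ht hα0 n
  have hle : ∀ n, (b t α n ≤ 1 + T (b t α) n ↔ ⌊t * α ^ n⌋ ≤ 1 + total t α n) := by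
    intro n
    rw [← hcast, ← hT]
    omega
  have hreal : ∀ n, ((⌊t * α ^ n⌋ : ℤ) : ℝ) = (b t α n : ℝ) := by
    intro n
    rw [← hcast]
    push_cast
    rfl
  have h2 : Complete (seqSet t α) ↔ ∀ n : ℕ, ⌊t * α ^ n⌋ ≤ 1 + total t α n := by
    rw [hC]
    exact forall_congr' hle
  refine ⟨⟨fun h m hm => ?_, fun h => ⟨0, fun m hm => h m hm⟩⟩, h2, fun hα2 => ⟨?_, ?_⟩, fun h53 => ?_,
    fun h2t hc => ?_⟩
  · obtain ⟨k, rfl⟩ := Int.eq_ofNat_of_zero_le hm
    exact (isSum_iff ht hα0 k).2 (rep_all (b_unb ht hα1) (hC.1 h) k)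
  · simp only [hreal]
    exact finite_set ht hα1 hα2
  · rw [hC, finite_test ht hα hα2]
    have e0 : b t α 0 ≤ 1 ↔ ⌊t⌋ ≤ 1 := by
      have := hcast 0
      rw [pow_zero, mul_one] at this
      rw [← this]
      omega
    rw [e0]
    refine and_congr Iff.rfl (forall_congr' fun n => ?_)
    rw [hreal, hle]
  · rw [hC, five_thirds ht hα h53]
    refine and_congr (exists_congr fun n => ?_) (exists_congr fun n => ?_)
    · rw [← hcast]
      omega
    · rw [← hcast]
      omega
  · have h0 := (hC.1 hc) 0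
    have h1 : T (b t α) 0 = 0 := by simp [T, V]
    have h3 : 2 ≤ b t α 0 := by
      unfold b
      refine Nat.le_floor ?_
      rw [pow_zero, mul_one]
      exact_mod_cast h2t
    omega

end Pool.Agent.Results.MP_0ff3a5_nt.AboveGoldenRatio
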